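import Mathlib

/-!
# Bridge theorem for monoid actions on compact abelian groups: tools from harmonic analysis

Orthogonality of characters and a dimension count: a finite set of characters of a compact abelian
group that is uniformly approximated by a family of functions with `n` members has at most `n`
elements.
-/

set_option autoImplicit false
set_option linter.unusedSectionVars false

open MeasureTheory

namespace Pool.Agent.H432.Bridge

universe u

section

variable {K : Type u} [CommGroup K] [TopologicalSpace K] [IsTopologicalGroup K]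
  [CompactSpace K] [MeasurableSpace K] [BorelSpace K]

lemma continuous_char (χ : PontryaginDual K) : Continuous fun y => (χ y : ℂ) :=
  continuous_subtype_val.comp (map_continuous χ)

variable (μ : Measure K) [IsProbabilityMeasure μ] [μ.IsMulLeftInvariant]

lemma integrable_cont {E : Type*} [NormedAddCommGroup E] {f : K → E} (hf : Continuous f) :
    Integrable f μ :=
  hf.integrable_of_hasCompactSupport (HasCompactSupport.of_compactSpace f)

lemma integral_char (χ : PontryaginDual K) (hχ : χ ≠ 1) : ∫ y, (χ y : ℂ) ∂μ = 0 := by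
  have hex : ∃ g, χ g ≠ 1 := by
    by_contra hcon
    push Not at hcon
    exact hχ (PontryaginDual.ext fun a => by simpa using hcon a)
  obtain ⟨g, hg⟩ := hex
  have h1 : ∫ y, (χ (g * y) : ℂ) ∂μ = ∫ y, (χ y : ℂ) ∂μ :=
    integral_mul_left_eq_self (fun y => (χ y : ℂ)) g
  have h2 : ∫ y, (χ (g * y) : ℂ) ∂μ = (χ g : ℂ) * ∫ y, (χ y : ℂ) ∂μ := by
    rw [← integral_const_mul]
    congr 1
    funext y
    rw [map_mul, Circle.coe_mul]
  rw [h2] at h1
  have h3 : ((χ g : ℂ) - 1) * ∫ y, (χ y : ℂ) ∂μ = 0 := by linear_combination h1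
  rcases mul_eq_zero.1 h3 with h | h
  · exact absurd (Circle.ext (by simpa [sub_eq_zero] using h)) hg
  · exact h

open Classical in
lemma integral_char_mul (χ ψ : PontryaginDual K) :
    ∫ y, (χ y : ℂ) * (starRingEnd ℂ) (ψ y : ℂ) ∂μ = if χ = ψ then 1 else 0 := by
  have h1 : ∀ y, (χ y : ℂ) * (starRingEnd ℂ) (ψ y : ℂ) = (((χ * ψ⁻¹ : PontryaginDual K) y : Circle) : ℂ) := by
    intro y
    have : (χ * ψ⁻¹ : PontryaginDual K) y = χ y * (ψ y)⁻¹ := rfl
    rw [this, Circle.coe_mul, Circle.coe_inv_eq_conj]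
  simp_rw [h1]
  split_ifs with h
  · subst h
    simp
  · exact integral_char μ _ (fun hc => h (by rw [mul_inv_eq_one] at hc; exact hc))

lemma parseval (T : Finset (PontryaginDual K)) (a : PontryaginDual K → ℂ) :
    ∫ y, ‖∑ χ ∈ T, a χ * (χ y : ℂ)‖ ^ 2 ∂μ = ∑ χ ∈ T, ‖a χ‖ ^ 2 := by
  classical
  have h1 : ((∫ y, ‖∑ χ ∈ T, a χ * (χ y : ℂ)‖ ^ 2 ∂μ : ℝ) : ℂ) = ((∑ χ ∈ T, ‖a χ‖ ^ 2 : ℝ) : ℂ) := by
    rw [← integral_complex_ofReal]
    have h2 : ∀ y, (((‖∑ χ ∈ T, a χ * (χ y : ℂ)‖ ^ 2 : ℝ)) : ℂ)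
        = ∑ χ ∈ T, ∑ ψ ∈ T, (a χ * (starRingEnd ℂ) (a ψ)) * ((χ y : ℂ) * (starRingEnd ℂ) (ψ y : ℂ)) := by
      intro y
      rw [← Complex.normSq_eq_norm_sq, ← Complex.mul_conj, map_sum, Finset.sum_mul_sum]
      refine Finset.sum_congr rfl fun χ _ => Finset.sum_congr rfl fun ψ _ => ?_
      rw [map_mul]; ring
    simp_rw [h2]
    rw [integral_finsetSum]
    · rw [Complex.ofReal_sum]
      refine Finset.sum_congr rfl fun χ hχ => ?_
      rw [integral_finsetSum]
      · simp_rw [integral_const_mul, integral_char_mul μ]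
        rw [Finset.sum_eq_single χ]
        · rw [if_pos rfl, mul_one, Complex.mul_conj, Complex.normSq_eq_norm_sq]
        · intro ψ _ hψ
          rw [if_neg (Ne.symm hψ), mul_zero]
        · intro h; exact absurd hχ h
      · intro ψ _
        apply integrable_cont
        exact continuous_const.mul ((continuous_char χ).mul (Complex.continuous_conj.comp (continuous_char ψ)))
    · intro χ _
      apply integrable_cont
      refine continuous_finsetSum _ fun ψ _ => ?_
      exact continuous_const.mul ((continuous_char χ).mul (Complex.continuous_conj.comp (continuous_char ψ)))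
  exact_mod_cast h1

include μ in
/-- A finite set of characters uniformly close to combinations of `n` fixed functions has at most
`n` elements. -/
lemma card_le_of_approx {ι : Type*} [Fintype ι] (T : Finset (PontryaginDual K)) (r : ℝ)
    (hr0 : 0 ≤ r) (hr : r ^ 2 * T.card < 1) (c : PontryaginDual K → ι → ℂ) (E : ι → K → ℂ)
    (h : ∀ τ ∈ T, ∀ y, ‖(τ y : ℂ) - ∑ i, c τ i * E i y‖ ≤ r) : T.card ≤ Fintype.card ι := by
  classical
  by_contra hcon
  push Not at hcon
  let L : (T → ℂ) →ₗ[ℂ] (ι → ℂ) :=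
    { toFun := fun a i => ∑ τ : T, a τ * c τ i
      map_add' := by
        intro a b; funext i
        simp only [Pi.add_apply, add_mul, Finset.sum_add_distrib]
      map_smul' := by
        intro z a; funext i
        simp only [Pi.smul_apply, smul_eq_mul, RingHom.id_apply, Finset.mul_sum, mul_assoc] }
  have hker : LinearMap.ker L ≠ ⊥ := by
    apply LinearMap.ker_ne_bot_of_finrank_lt
    simpa using hcon
  obtain ⟨a, haL, ha0⟩ := Submodule.exists_mem_ne_zero_of_ne_bot hker
  have haL' : ∀ i, ∑ τ : T, a τ * c τ i = 0 := fun i => congrFun (LinearMap.mem_ker.1 haL) i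
  -- extend `a` to all characters
  set b : PontryaginDual K → ℂ := fun τ => if hτ : τ ∈ T then a ⟨τ, hτ⟩ else 0 with hb
  have hbT : ∀ g : PontryaginDual K → ℂ, ∑ τ ∈ T, b τ * g τ = ∑ τ : T, a τ * g τ := by
    intro g
    rw [← Finset.sum_coe_sort T (fun τ => b τ * g τ)]
    refine Finset.sum_congr rfl fun τ _ => ?_
    simp [hb]
  have hpos : 0 < ∑ τ ∈ T, ‖b τ‖ ^ 2 := by
    obtain ⟨τ, hτ⟩ : ∃ τ, a τ ≠ 0 := by
      by_contra hc
      push Not at hc
      exact ha0 (funext hc)
    apply Finset.sum_pos' (fun _ _ => by positivity)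
    refine ⟨τ, τ.2, ?_⟩
    have : b τ = a τ := by simp [hb]
    rw [this]
    have := norm_pos_iff.2 hτ
    positivity
  have hpt : ∀ y, ‖∑ τ ∈ T, b τ * (τ y : ℂ)‖ ≤ r * ∑ τ ∈ T, ‖b τ‖ := by
    intro y
    have h1 : ∑ τ ∈ T, b τ * (∑ i, c τ i * E i y) = 0 := by
      have : ∀ τ ∈ T, b τ * (∑ i, c τ i * E i y) = ∑ i, b τ * c τ i * E i y := by
        intro τ _
        rw [Finset.mul_sum]
        exact Finset.sum_congr rfl fun i _ => by ring
      rw [Finset.sum_congr rfl this, Finset.sum_comm]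
      apply Finset.sum_eq_zero
      intro i _
      rw [← Finset.sum_mul, hbT (fun τ => c τ i), haL' i, zero_mul]
    have h2 : ∑ τ ∈ T, b τ * (τ y : ℂ) = ∑ τ ∈ T, b τ * ((τ y : ℂ) - ∑ i, c τ i * E i y) := by
      simp_rw [mul_sub]
      rw [Finset.sum_sub_distrib, h1, sub_zero]
    rw [h2]
    refine (norm_sum_le _ _).trans ?_
    rw [Finset.mul_sum]
    refine Finset.sum_le_sum fun τ hτ => ?_
    rw [norm_mul, mul_comm]
    exact mul_le_mul_of_nonneg_right (h τ hτ y) (norm_nonneg _)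
  have hint : ∫ y, ‖∑ τ ∈ T, b τ * (τ y : ℂ)‖ ^ 2 ∂μ ≤ (r * ∑ τ ∈ T, ‖b τ‖) ^ 2 := by
    have hc : Continuous fun y => ‖∑ τ ∈ T, b τ * (τ y : ℂ)‖ ^ 2 := by
      refine (continuous_norm.comp (continuous_finsetSum _ fun τ _ => ?_)).pow 2
      exact continuous_const.mul (continuous_char τ)
    have := integral_mono (integrable_cont μ hc) (integrable_const ((r * ∑ τ ∈ T, ‖b τ‖) ^ 2))
      (fun y => pow_le_pow_left₀ (norm_nonneg _) (hpt y) 2)
    simpa using this
  rw [parseval μ] at hint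
  have hcs : (∑ τ ∈ T, ‖b τ‖) ^ 2 ≤ T.card * ∑ τ ∈ T, ‖b τ‖ ^ 2 := sq_sum_le_card_mul_sum_sq
  have : (r * ∑ τ ∈ T, ‖b τ‖) ^ 2 ≤ r ^ 2 * T.card * ∑ τ ∈ T, ‖b τ‖ ^ 2 := by
    rw [mul_pow]
    nlinarith [sq_nonneg r]
  nlinarith

end

end Pool.Agent.H432.Bridge
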