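import Mathlib
import Pool.Agent.H432.BridgeA

/-!
# Bridge theorem for monoid actions on compact abelian groups: definitions and first inequality
-/

set_option autoImplicit false
set_option linter.unusedSectionVars false

open MeasureTheory

namespace Pool.Agent.H432.Bridge

universe u v

/-- A finite open cover of `K`. -/
def IsFiniteOpenCover (K : Type u) [TopologicalSpace K] (𝒰 : Set (Set K)) : Prop :=
  𝒰.Finite ∧ (∀ U ∈ 𝒰, IsOpen U) ∧ ⋃₀ 𝒰 = Set.univ

/-- `N(𝒰)`: the least number of members of a subfamily of `𝒰` that still covers. -/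
noncomputable def coverNumber {K : Type u} (𝒰 : Set (Set K)) : ℕ :=
  sInf {n | ∃ 𝒱 : Finset (Set K), (𝒱 : Set (Set K)) ⊆ 𝒰 ∧ ⋃₀ (𝒱 : Set (Set K)) = Set.univ ∧
    𝒱.card = n}

/-- `⋁_{s ∈ F} γ(s)⁻¹(𝒰)`. -/
def join {S : Type v} {K : Type u} (γ : S → K → K) (F : Finset S) (𝒰 : Set (Set K)) :
    Set (Set K) :=
  {W | ∃ f : S → Set K, (∀ s ∈ F, f s ∈ 𝒰) ∧ W = ⋂ s ∈ F, γ s ⁻¹' f s}

/-- `T_F(X) = ∏_{s ∈ F} X · s` where `χ · s = χ ∘ γ(s)` (the dual group in multiplicative
notation). -/
def traj {S : Type v} {K : Type u} [CommGroup K] [TopologicalSpace K]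
    (γ : S → K →ₜ* K) (F : Finset S) (X : Finset (PontryaginDual K)) : Set (PontryaginDual K) :=
  {τ | ∃ f : S → PontryaginDual K, (∀ s ∈ F, f s ∈ X) ∧
    τ = ∏ s ∈ F, PontryaginDual.map (γ s) (f s)}

section cover

variable {K : Type u} {S : Type v}

lemma coverNumber_spec {𝒰 : Set (Set K)} (hf : 𝒰.Finite) (hc : ⋃₀ 𝒰 = Set.univ) :
    ∃ 𝒱 : Finset (Set K), (𝒱 : Set (Set K)) ⊆ 𝒰 ∧ ⋃₀ (𝒱 : Set (Set K)) = Set.univ ∧
      𝒱.card = coverNumber 𝒰 := by
  have hne : {n | ∃ 𝒱 : Finset (Set K), (𝒱 : Set (Set K)) ⊆ 𝒰 ∧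
      ⋃₀ (𝒱 : Set (Set K)) = Set.univ ∧ 𝒱.card = n}.Nonempty :=
    ⟨hf.toFinset.card, hf.toFinset, by simp, by simpa using hc, rfl⟩
  exact Nat.sInf_mem hne

lemma coverNumber_le {𝒰 : Set (Set K)} (𝒱 : Finset (Set K)) (h : (𝒱 : Set (Set K)) ⊆ 𝒰)
    (hc : ⋃₀ (𝒱 : Set (Set K)) = Set.univ) : coverNumber 𝒰 ≤ 𝒱.card :=
  Nat.sInf_le ⟨𝒱, h, hc, rfl⟩

lemma join_finite (γ : S → K → K) (F : Finset S) {𝒰 : Set (Set K)} (hf : 𝒰.Finite) :
    (join γ F 𝒰).Finite := by
  classical
  have := hf.to_subtype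
  have : join γ F 𝒰 ⊆ Set.range (fun g : F → 𝒰 => ⋂ s : F, γ s ⁻¹' (g s : Set K)) := by
    rintro W ⟨f, hf, rfl⟩
    refine ⟨fun s => ⟨f s, hf s s.2⟩, ?_⟩
    ext x; simp
  exact (Set.finite_range _).subset this

lemma join_cover (γ : S → K → K) (F : Finset S) {𝒰 : Set (Set K)} (hc : ⋃₀ 𝒰 = Set.univ) :
    ⋃₀ (join γ F 𝒰) = Set.univ := by
  apply Set.eq_univ_of_forall
  intro x
  have : ∀ s : S, ∃ U ∈ 𝒰, γ s x ∈ U := by
    intro s
    have : γ s x ∈ ⋃₀ 𝒰 := by rw [hc]; trivial
    simpa using this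
  choose f hf hx using this
  exact ⟨⋂ s ∈ F, γ s ⁻¹' f s, ⟨f, fun s _ => hf s, rfl⟩, by simpa using fun s _ => hx s⟩

end cover

section partA

variable {K : Type u} {S : Type v} [CommGroup K] [TopologicalSpace K] [IsTopologicalGroup K]
  [CompactSpace K]

lemma traj_finite (γ : S → K →ₜ* K) (F : Finset S) (X : Finset (PontryaginDual K)) :
    (traj γ F X).Finite := by
  classical
  have : traj γ F X ⊆ Set.range (fun g : F → X =>
      ∏ s : F, PontryaginDual.map (γ s) (g s : PontryaginDual K)) := by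
    rintro τ ⟨f, hf, rfl⟩
    refine ⟨fun s => ⟨f s, hf s s.2⟩, ?_⟩
    exact Finset.prod_coe_sort F (fun s => PontryaginDual.map (γ s) (f s))
  exact (Set.finite_range _).subset this

/-- The size of the support of a partial function. -/
def sc {α β : Type*} [Fintype α] (g : α → Option β) : ℕ :=
  (Finset.univ.filter (fun s => (g s).isSome)).card

/-- Partial functions with small support. -/
noncomputable def small (α β : Type*) [Fintype α] [DecidableEq α] [Fintype β] (θ : ℝ) :
    Finset (α → Option β) := Finset.univ.filter (fun g => (sc g : ℝ) ≤ θ)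

lemma mem_small {α β : Type*} [Fintype α] [DecidableEq α] [Fintype β] (θ : ℝ) (g : α → Option β) :
    g ∈ small α β θ ↔ (sc g : ℝ) ≤ θ := by
  simp [small]

/-- The weight of a partial function. -/
lemma prod_weight {α β : Type*} [Fintype α] (x : ℝ) (g : α → Option β) :
    ∏ s, (if (g s).isSome then x else 1) = x ^ sc g := by
  rw [Finset.prod_ite, Finset.prod_const_one, mul_one, Finset.prod_const, sc]

lemma sum_prod_option {α β : Type*} [Fintype α] [DecidableEq α] [Fintype β] {R : Type*} [CommRing R]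
    (w : α → Option β → R) :
    ∑ g : α → Option β, ∏ s, w s (g s) = ∏ s, (w s none + ∑ b, w s (some b)) := by
  have h1 := Finset.prod_univ_sum (fun _ : α => (Finset.univ : Finset (Option β))) w
  rw [Fintype.piFinset_univ] at h1
  rw [← h1]
  exact Finset.prod_congr rfl fun s _ => Fintype.sum_option _

/-- Chernoff bound for partial functions with small support. -/
lemma chernoff {α β : Type*} [Fintype α] [DecidableEq α] [Fintype β] (t θ : ℝ) (ht : 1 ≤ t) :
    ((small α β θ).card : ℝ) ≤ t ^ θ * (1 + Fintype.card β / t) ^ Fintype.card α := by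
  have ht0 : 0 < t := by linarith
  have hsum : ∑ g : α → Option β, ∏ s, (if (g s).isSome then t⁻¹ else 1)
      = (1 + Fintype.card β / t) ^ Fintype.card α := by
    rw [sum_prod_option (fun (_ : α) (o : Option β) => if o.isSome then t⁻¹ else (1 : ℝ)),
      Finset.prod_const, Finset.card_univ]
    simp [div_eq_mul_inv]
  rw [← hsum, Finset.mul_sum]
  have h2 : ∀ g ∈ small α β θ, (1 : ℝ) ≤ t ^ θ * ∏ s, (if (g s).isSome then t⁻¹ else 1) := by
    intro g hg
    rw [mem_small] at hg
    rw [prod_weight, inv_pow, ← Real.rpow_natCast, ← Real.rpow_neg ht0.le, ← Real.rpow_add ht0]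
    apply Real.one_le_rpow ht
    linarith
  calc ((small α β θ).card : ℝ)
      = ∑ g ∈ small α β θ, (1 : ℝ) := by simp
    _ ≤ ∑ g ∈ small α β θ, t ^ θ * ∏ s, (if (g s).isSome then t⁻¹ else 1) := Finset.sum_le_sum h2
    _ ≤ ∑ g : α → Option β, t ^ θ * ∏ s, (if (g s).isSome then t⁻¹ else 1) := by
        apply Finset.sum_le_sum_of_subset_of_nonneg (Finset.subset_univ _)
        intro g _ _
        refine mul_nonneg (Real.rpow_nonneg ht0.le _) (Finset.prod_nonneg fun s _ => ?_)
        split_ifs <;> positivity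

/-- Sum of the weights of the partial functions with large support. -/
lemma chernoff_large {α β : Type*} [Fintype α] [DecidableEq α] [Fintype β]
    (u δ θ : ℝ) (hu : 1 ≤ u) (v : α → Option β → ℝ)
    (hv0 : ∀ s o, 0 ≤ v s o) (hvn : ∀ s, v s none = 1) (hvs : ∀ s, ∑ b, v s (some b) ≤ δ) :
    ∑ g : α → Option β with ¬ (sc g : ℝ) ≤ θ, ∏ s, v s (g s) ≤
      u ^ (-θ) * (1 + δ * u) ^ Fintype.card α := by
  have hu0 : 0 < u := by linarith
  have h1 : ∀ g ∈ (Finset.univ : Finset (α → Option β)).filter (fun g => ¬ (sc g : ℝ) ≤ θ),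
      ∏ s, v s (g s) ≤ u ^ (-θ) * ∏ s, (v s (g s) * if (g s).isSome then u else 1) := by
    intro g hg
    rw [Finset.mem_filter] at hg
    have hg2 := hg.2
    push Not at hg2
    rw [Finset.prod_mul_distrib, prod_weight, ← mul_assoc, mul_comm (u ^ (-θ)), mul_assoc,
      ← Real.rpow_natCast u, ← Real.rpow_add hu0]
    have h3 : (1 : ℝ) ≤ u ^ (-θ + (sc g : ℝ)) := by
      apply Real.one_le_rpow hu
      linarith
    have h4 : 0 ≤ ∏ s, v s (g s) := Finset.prod_nonneg fun s _ => hv0 s _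
    nlinarith
  refine (Finset.sum_le_sum h1).trans ?_
  rw [← Finset.mul_sum]
  apply mul_le_mul_of_nonneg_left _ (Real.rpow_nonneg hu0.le _)
  calc ∑ g ∈ (Finset.univ : Finset (α → Option β)).filter (fun g => ¬ (sc g : ℝ) ≤ θ),
        ∏ s, (v s (g s) * if (g s).isSome then u else 1)
      ≤ ∑ g : α → Option β, ∏ s, (v s (g s) * if (g s).isSome then u else 1) := by
        apply Finset.sum_le_sum_of_subset_of_nonneg (Finset.subset_univ _)
        intro g _ _
        refine Finset.prod_nonneg fun s _ => mul_nonneg (hv0 s _) ?_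
        split_ifs <;> positivity
    _ = ∏ s : α, (v s none + ∑ b, v s (some b) * u) := by
        rw [sum_prod_option (fun (s : α) (o : Option β) => v s o * if o.isSome then u else (1 : ℝ))]
        simp
    _ ≤ ∏ s : α, (1 + δ * u) := by
        apply Finset.prod_le_prod
        · intro s _
          exact add_nonneg (hv0 s _) (Finset.sum_nonneg fun b _ => mul_nonneg (hv0 s _) hu0.le)
        · intro s _
          rw [hvn, ← Finset.sum_mul]
          have := mul_le_mul_of_nonneg_right (hvs s) hu0.le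
          linarith
    _ = (1 + δ * u) ^ Fintype.card α := by rw [Finset.prod_const, Finset.card_univ]

/-- A finite open cover on whose members finitely many characters vary little. -/
lemma exists_bohr_cover (X : Finset (PontryaginDual K)) (δ : ℝ) (hδ : 0 < δ) :
    ∃ 𝒰 : Set (Set K), IsFiniteOpenCover K 𝒰 ∧
      ∀ U ∈ 𝒰, ∀ x ∈ U, ∀ y ∈ U, ∀ χ ∈ X, ‖(χ x : ℂ) - (χ y : ℂ)‖ ≤ δ := by
  classical
  have hopen : ∀ x : K, IsOpen {y : K | ∀ χ ∈ X, ‖(χ y : ℂ) - (χ x : ℂ)‖ < δ / 2} := by
    intro x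
    have : {y : K | ∀ χ ∈ X, ‖(χ y : ℂ) - (χ x : ℂ)‖ < δ / 2} =
        ⋂ χ ∈ X, {y : K | ‖(χ y : ℂ) - (χ x : ℂ)‖ < δ / 2} := by
      ext y; simp
    rw [this]
    refine isOpen_biInter_finset fun χ _ => ?_
    exact isOpen_lt (continuous_norm.comp ((continuous_subtype_val.comp (map_continuous χ)).sub continuous_const))
      continuous_const
  obtain ⟨t, ht⟩ := isCompact_univ.elim_finite_subcover
    (fun x : K => {y : K | ∀ χ ∈ X, ‖(χ y : ℂ) - (χ x : ℂ)‖ < δ / 2}) hopen
    (fun x _ => Set.mem_iUnion.2 ⟨x, fun χ _ => by simpa using by positivity⟩)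
  refine ⟨(fun x : K => {y : K | ∀ χ ∈ X, ‖(χ y : ℂ) - (χ x : ℂ)‖ < δ / 2}) '' (t : Set K),
    ⟨t.finite_toSet.image _, ?_, ?_⟩, ?_⟩
  · rintro U ⟨x, _, rfl⟩
    exact hopen x
  · apply Set.eq_univ_of_forall
    intro y
    have := ht (Set.mem_univ y)
    simp only [Set.mem_iUnion] at this
    obtain ⟨x, hx, hy⟩ := this
    exact ⟨_, ⟨x, hx, rfl⟩, hy⟩
  · rintro U ⟨z, _, rfl⟩ x hx y hy χ hχ
    have h1 := hx χ hχ
    have h2 := hy χ hχ
    calc ‖(χ x : ℂ) - (χ y : ℂ)‖ = ‖((χ x : ℂ) - (χ z : ℂ)) - ((χ y : ℂ) - (χ z : ℂ))‖ := by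
          congr 1; ring
      _ ≤ ‖(χ x : ℂ) - (χ z : ℂ)‖ + ‖(χ y : ℂ) - (χ z : ℂ)‖ := norm_sub_le _ _
      _ ≤ δ := by linarith

open Classical in
/-- The local inequality behind `h_alg ≤ h_top`. -/
lemma card_traj_le [MeasurableSpace K] [BorelSpace K] (μ : Measure K) [IsProbabilityMeasure μ]
    [μ.IsMulLeftInvariant]
    (γ : S → K →ₜ* K) (X : Finset (PontryaginDual K)) (hX : X.Nonempty)
    (𝒰 : Set (Set K)) (h𝒰 : IsFiniteOpenCover K 𝒰) (δ : ℝ) (hδ0 : 0 ≤ δ)
    (hδ : ∀ U ∈ 𝒰, ∀ x ∈ U, ∀ y ∈ U, ∀ χ ∈ X, ‖(χ x : ℂ) - (χ y : ℂ)‖ ≤ δ)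
    (u : ℝ) (hu : 1 ≤ u) (θ : ℝ) (F : Finset S)
    (hr : (u ^ (-θ) * (1 + δ * u) ^ F.card) ^ 2 * (X.card : ℝ) ^ F.card < 1) :
    (traj γ F X).ncard ≤ coverNumber (join (fun s => γ s) F 𝒰) * (small F X θ).card := by
  have hXn : Nonempty X := hX.to_subtype
  set T : Finset (PontryaginDual K) := (traj_finite γ F X).toFinset with hT
  have hTc : T.card = (traj γ F X).ncard := (Set.ncard_eq_toFinset_card _ _).symm
  -- representatives
  have hrep : ∀ τ : PontryaginDual K, ∃ g : F → X, τ ∈ T →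
      τ = ∏ s : F, PontryaginDual.map (γ s) (g s : PontryaginDual K) := by
    intro τ
    by_cases hτ : τ ∈ T
    · have h1 : τ ∈ traj γ F X := by simpa [hT] using hτ
      obtain ⟨f, hf, hτf⟩ := h1
      refine ⟨fun s => ⟨f s, hf s s.2⟩, fun _ => ?_⟩
      rw [hτf]
      exact (Finset.prod_coe_sort F (fun s => PontryaginDual.map (γ s) (f s))).symm
    · exact ⟨fun _ => Classical.arbitrary X, fun h => absurd h hτ⟩
  choose rep hrep using hrep
  -- number of elements
  have hTle : (T.card : ℝ) ≤ (X.card : ℝ) ^ F.card := by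
    have h1 : T.card ≤ Fintype.card (F → X) := by
      apply Finset.card_le_card_of_injOn rep (t := Finset.univ) (fun _ _ => Finset.mem_coe.2 (Finset.mem_univ _))
      intro a ha b hb hab
      rw [hrep a ha, hrep b hb, hab]
    have h2 : Fintype.card (F → X) = X.card ^ F.card := by simp
    rw [h2] at h1
    exact_mod_cast h1
  -- the cells
  obtain ⟨𝒱, h𝒱, hcov, hcard⟩ := coverNumber_spec (join_finite (fun s => (γ s : K → K)) F h𝒰.1)
    (join_cover (fun s => (γ s : K → K)) F h𝒰.2.2)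
  have hcell : ∀ y : K, ∃ V : 𝒱, y ∈ (V : Set K) := by
    intro y
    have : y ∈ ⋃₀ (𝒱 : Set (Set K)) := by rw [hcov]; trivial
    obtain ⟨V, hV, hy⟩ := this
    exact ⟨⟨V, hV⟩, hy⟩
  choose cell hcell using hcell
  have hbase : ∀ V : 𝒱, ∃ z : K, (V : Set K).Nonempty → z ∈ (V : Set K) := by
    intro V
    by_cases h : (V : Set K).Nonempty
    · exact ⟨h.some, fun _ => h.some_mem⟩
    · exact ⟨1, fun h' => absurd h' h⟩
  choose bp hbp using hbase
  set th : PontryaginDual K → 𝒱 → F → Option X → ℂ := fun τ V s o =>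
    match o with
    | none => ((rep τ s : PontryaginDual K) (γ s (bp V)) : ℂ)
    | some χ => if χ = rep τ s then 1 else 0 with hth
  set e : 𝒱 → K → F → Option X → ℂ := fun V y s o =>
    match o with
    | none => 1
    | some χ => ((χ : PontryaginDual K) (γ s y) : ℂ) - ((χ : PontryaginDual K) (γ s (bp V)) : ℂ) with he
  have key := card_le_of_approx μ (ι := 𝒱 × small F X θ) T (u ^ (-θ) * (1 + δ * u) ^ F.card)
    (by positivity) (lt_of_le_of_lt (mul_le_mul_of_nonneg_left hTle (sq_nonneg _)) hr)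
    (fun τ i => ∏ s : F, th τ i.1 s (i.2.1 s))
    (fun i y => if i.1 = cell y then ∏ s : F, e i.1 y s (i.2.1 s) else 0) ?_
  · rw [hTc, Fintype.card_prod, Fintype.card_coe, Fintype.card_coe, hcard] at key
    exact key
  intro τ hτ y
  -- the product expansion
  have hexp : (τ y : ℂ) = ∑ g : F → Option X, ∏ s : F, (th τ (cell y) s (g s) * e (cell y) y s (g s)) := by
    rw [sum_prod_option (fun (s : F) (o : Option X) => th τ (cell y) s o * e (cell y) y s o)]
    have h1 : ∀ s : F, (th τ (cell y) s none * e (cell y) y s none +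
        ∑ b : X, th τ (cell y) s (some b) * e (cell y) y s (some b)) =
        ((rep τ s : PontryaginDual K) (γ s y) : ℂ) := by
      intro s
      simp only [hth, he, ite_mul, one_mul, zero_mul, mul_one, Finset.sum_ite_eq', Finset.mem_univ,
        if_true]
      ring
    rw [Finset.prod_congr rfl fun s _ => h1 s]
    conv_lhs => rw [hrep τ hτ]
    have h2 : (∏ s : F, PontryaginDual.map (γ s) (rep τ s : PontryaginDual K)) y =
        ∏ s : F, (rep τ s : PontryaginDual K) (γ s y) := by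
      have : ∀ (A : Finset F), (∏ s ∈ A, PontryaginDual.map (γ s) (rep τ s : PontryaginDual K)) y =
        ∏ s ∈ A, (rep τ s : PontryaginDual K) (γ s y) := by
        intro A
        induction A using Finset.induction_on with
        | empty => simp
        | insert a A ha ih =>
          rw [Finset.prod_insert ha, Finset.prod_insert ha, ← ih]
          rfl
      exact this _
    rw [h2]
    exact map_prod Circle.coeHom _ _
  have hsum : ∑ i : 𝒱 × small F X θ, (∏ s : F, th τ i.1 s (i.2.1 s)) *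
      (if i.1 = cell y then ∏ s : F, e i.1 y s (i.2.1 s) else 0) =
      ∑ g ∈ small F X θ, ∏ s : F, (th τ (cell y) s (g s) * e (cell y) y s (g s)) := by
    rw [Fintype.sum_prod_type, Finset.sum_eq_single (cell y)]
    · rw [← Finset.sum_coe_sort (small F X θ)]
      refine Finset.sum_congr rfl fun g _ => ?_
      simp [Finset.prod_mul_distrib]
    · intro V _ hV
      simp [hV]
    · intro h; exact absurd (Finset.mem_univ _) h
  have hsplit := Finset.sum_filter_add_sum_filter_not (Finset.univ : Finset (F → Option X))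
    (fun g => (sc g : ℝ) ≤ θ) (fun g => ∏ s : F, (th τ (cell y) s (g s) * e (cell y) y s (g s)))
  rw [hsum, hexp, ← hsplit, small, add_sub_cancel_left]
  refine (norm_sum_le _ _).trans ?_
  simp_rw [norm_prod]
  have hcl := chernoff_large (α := F) (β := X) u δ θ hu
    (fun s o => ‖th τ (cell y) s o * e (cell y) y s o‖) (fun s o => norm_nonneg _) ?_ ?_
  · rwa [Fintype.card_coe] at hcl
  · intro s
    simp only [hth, he, mul_one]
    exact Circle.norm_coe _
  · intro s
    have h1 : ∀ b : X, ‖th τ (cell y) s (some b) * e (cell y) y s (some b)‖ =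
        if b = rep τ s then ‖e (cell y) y s (some b)‖ else 0 := by
      intro b
      simp only [hth]
      split_ifs <;> simp
    simp_rw [h1]
    rw [Finset.sum_ite_eq' Finset.univ (rep τ s), if_pos (Finset.mem_univ _)]
    simp only [he]
    have hy := hcell y
    have hb := hbp (cell y) ⟨y, hcell y⟩
    obtain ⟨f, hf, hW⟩ := h𝒱 (cell y).2
    rw [hW] at hy hb
    simp only [Set.mem_iInter, Set.mem_preimage] at hy hb
    exact hδ (f s) (hf s s.2) _ (hy s s.2) _ (hb s s.2) _ (rep τ s).2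

/-- First inequality: the algebraic growth along `X` is dominated by the topological growth along a
suitable open cover, uniformly over all finite nonempty sets `F`. -/
theorem partA (γ : S → K →ₜ* K) (X : Finset (PontryaginDual K)) (hX : X.Nonempty) (ε : ℝ)
    (hε : 0 < ε) :
    ∃ 𝒰 : Set (Set K), IsFiniteOpenCover K 𝒰 ∧ ∀ F : Finset S, F.Nonempty →
      Real.log ((traj γ F X).ncard : ℝ) ≤
        Real.log (coverNumber (join (fun s => γ s) F 𝒰) : ℝ) + ε * F.card := by
  classical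
  letI : MeasurableSpace K := borel K
  haveI : BorelSpace K := ⟨rfl⟩
  let μ : Measure K := Measure.haarMeasure ⊤
  haveI : IsProbabilityMeasure μ := ⟨by
    have := Measure.haarMeasure_self (G := K) (K₀ := ⊤)
    simpa [μ] using this⟩
  haveI : μ.IsMulLeftInvariant := by dsimp only [μ]; infer_instance
  set q : ℝ := (X.card : ℝ) with hq
  have hq1 : 1 ≤ q := by
    have : 1 ≤ X.card := hX.card_pos
    rw [hq]; exact_mod_cast this
  set t : ℝ := 1 + 2 * q / ε with ht
  have ht1 : 1 ≤ t := by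
    have : 0 ≤ 2 * q / ε := by positivity
    linarith
  have ht0 : 0 < t := by linarith
  have hlt : 0 ≤ Real.log t := Real.log_nonneg ht1
  set η : ℝ := ε / (2 * (Real.log t + 1)) with hη
  have hη0 : 0 < η := by positivity
  set u : ℝ := (4 * q + 1) ^ (1 / (2 * η)) with hu
  have hu1 : 1 ≤ u := Real.one_le_rpow (by linarith) (by positivity)
  have hu0 : 0 < u := by linarith
  obtain ⟨𝒰, h𝒰, hδ⟩ := exists_bohr_cover X u⁻¹ (by positivity)
  refine ⟨𝒰, h𝒰, fun F hF => ?_⟩
  have hn : 0 < F.card := hF.card_pos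
  have hr : (u ^ (-(η * F.card)) * (1 + u⁻¹ * u) ^ F.card) ^ 2 * (X.card : ℝ) ^ F.card < 1 := by
    rw [inv_mul_cancel₀ hu0.ne']
    have h1 : u ^ (-(η * F.card)) = (u ^ (-η)) ^ F.card := by
      rw [← Real.rpow_natCast (u ^ (-η)), ← Real.rpow_mul hu0.le]
      ring_nf
    have h2 : (u ^ (-η)) ^ 2 = (4 * q + 1)⁻¹ := by
      rw [← Real.rpow_natCast (u ^ (-η)), ← Real.rpow_mul hu0.le, hu, ← Real.rpow_mul (by linarith),
        ← Real.rpow_neg_one]
      congr 1
      field_simp
      norm_num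
    have h3 : (u ^ (-(η * F.card)) * (1 + 1) ^ F.card) ^ 2 * (X.card : ℝ) ^ F.card =
        ((4 * q + 1)⁻¹ * 4 * q) ^ F.card := by
      rw [h1, ← mul_pow, ← pow_mul, mul_comm F.card 2, pow_mul, mul_pow, h2, ← mul_pow, ← hq]
      norm_num
    rw [h3]
    apply pow_lt_one₀ (by positivity) _ hn.ne'
    rw [mul_assoc, inv_mul_lt_iff₀ (by linarith)]
    linarith
  have h1 := card_traj_le μ γ X hX 𝒰 h𝒰 u⁻¹ (by positivity) hδ u hu1 (η * F.card) F hr
  have h2 := chernoff (α := F) (β := X) t (η * F.card) ht1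
  rw [Fintype.card_coe, Fintype.card_coe] at h2
  have h3 : t ^ (η * F.card) * (1 + (X.card : ℝ) / t) ^ F.card ≤ Real.exp (ε * F.card) := by
    have h4 : t ^ (η * F.card) ≤ Real.exp (ε / 2 * F.card) := by
      rw [Real.rpow_def_of_pos ht0]
      apply Real.exp_le_exp.2
      have : Real.log t * η ≤ ε / 2 := by
        rw [hη, mul_div_assoc', div_le_iff₀ (by positivity)]
        nlinarith
      calc Real.log t * (η * F.card) = (Real.log t * η) * F.card := by ring
        _ ≤ ε / 2 * F.card := mul_le_mul_of_nonneg_right this (by positivity)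
    have h5 : (1 + (X.card : ℝ) / t) ^ F.card ≤ Real.exp (ε / 2 * F.card) := by
      rw [mul_comm, Real.exp_nat_mul]
      apply pow_le_pow_left₀ (by positivity)
      have h6 : (X.card : ℝ) / t ≤ ε / 2 := by
        rw [div_le_iff₀ ht0, ht, ← hq]
        have : ε / 2 * (1 + 2 * q / ε) = ε / 2 + q := by field_simp
        linarith
      have := Real.add_one_le_exp (ε / 2)
      linarith
    calc t ^ (η * F.card) * (1 + (X.card : ℝ) / t) ^ F.card
        ≤ Real.exp (ε / 2 * F.card) * Real.exp (ε / 2 * F.card) :=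
          mul_le_mul h4 h5 (by positivity) (by positivity)
      _ = Real.exp (ε * F.card) := by rw [← Real.exp_add]; congr 1; ring
  have h6 : ((traj γ F X).ncard : ℝ) ≤
      (coverNumber (join (fun s => γ s) F 𝒰) : ℝ) * Real.exp (ε * F.card) := by
    have h7 : ((traj γ F X).ncard : ℝ) ≤ (coverNumber (join (fun s => γ s) F 𝒰) : ℝ) *
        ((small F X (η * F.card)).card : ℝ) := by exact_mod_cast h1
    exact h7.trans (mul_le_mul_of_nonneg_left (h2.trans h3) (by positivity))
  -- the trajectory is non-empty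
  obtain ⟨χ₀, hχ₀⟩ := hX
  have hpos : 0 < (traj γ F X).ncard := by
    rw [Set.ncard_pos (traj_finite γ F X)]
    exact ⟨_, fun _ => χ₀, fun _ _ => hχ₀, rfl⟩
  have hposR : (0 : ℝ) < (traj γ F X).ncard := by exact_mod_cast hpos
  have hN : (0 : ℝ) < (coverNumber (join (fun s => γ s) F 𝒰) : ℝ) := by
    have h8 := lt_of_lt_of_le hposR h6
    exact (pos_iff_pos_of_mul_pos h8).2 (Real.exp_pos _)
  have h9 := Real.log_le_log hposR h6
  rwa [Real.log_mul hN.ne' (Real.exp_pos _).ne', Real.log_exp] at h9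

end partA

end Pool.Agent.H432.Bridge
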