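import Mathlib
import Pool.Agent.H432.BridgeB
import Pool.Agent.Helper472.Lat_Chars

/-!
# Bridge theorem for monoid actions on compact abelian groups: second inequality
-/

set_option autoImplicit false
set_option linter.unusedSectionVars false

open MeasureTheory Topology

namespace Pool.Agent.H432.Bridge

universe u v

section partB

variable {K : Type u} {S : Type v} [CommGroup K] [TopologicalSpace K] [IsTopologicalGroup K]
  [CompactSpace K]

/-- The Bowen set `⋂_{s ∈ F} γ(s)⁻¹(W)`. -/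
def bowen (γ : S → K →ₜ* K) (F : Finset S) (W : Set K) : Set K := {y | ∀ s ∈ F, γ s y ∈ W}

lemma isOpen_bowen (γ : S → K →ₜ* K) (F : Finset S) {W : Set K} (hW : IsOpen W) :
    IsOpen (bowen γ F W) := by
  have : bowen γ F W = ⋂ s ∈ F, (γ s) ⁻¹' W := by
    ext y; simp [bowen]
  rw [this]
  exact isOpen_biInter_finset fun s _ => hW.preimage (map_continuous (γ s))

lemma exists_lebesgue (𝒰 : Set (Set K)) (h : IsFiniteOpenCover K 𝒰) :
    ∃ V : Set K, IsOpen V ∧ (1 : K) ∈ V ∧ ∀ x, ∃ U ∈ 𝒰, ∀ v ∈ V, x * v ∈ U := by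
  have h1 : ∀ x : K, ∃ U ∈ 𝒰, x ∈ U := by
    intro x
    have : x ∈ ⋃₀ 𝒰 := by rw [h.2.2]; trivial
    exact this
  choose U hU hxU using h1
  have h2 : ∀ x : K, ∃ W : Set K, IsOpen W ∧ (1 : K) ∈ W ∧
      ∀ v ∈ W, ∀ w ∈ W, x * (v * w) ∈ U x := by
    intro x
    have : {z : K | x * z ∈ U x} ∈ 𝓝 (1 : K) :=
      ((h.2.1 _ (hU x)).preimage (continuous_const_mul x)).mem_nhds (by simpa using hxU x)
    obtain ⟨W, hW, h1W, hWW⟩ := exists_open_nhds_one_split this
    exact ⟨W, hW, h1W, fun v hv w hw => hWW v hv w hw⟩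
  choose W hWo hW1 hWW using h2
  obtain ⟨t, ht⟩ := isCompact_univ.elim_finite_subcover (fun x : K => {y | x⁻¹ * y ∈ W x})
    (fun x => (hWo x).preimage (continuous_const_mul x⁻¹))
    (fun x _ => Set.mem_iUnion.2 ⟨x, by simpa using hW1 x⟩)
  refine ⟨⋂ x ∈ t, W x, isOpen_biInter_finset fun x _ => hWo x, by simp [hW1], fun x => ?_⟩
  have hx := ht (Set.mem_univ x)
  simp only [Set.mem_iUnion] at hx
  obtain ⟨x₀, hx₀, hx⟩ := hx
  refine ⟨U x₀, hU x₀, fun v hv => ?_⟩
  simp only [Set.mem_iInter] at hv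
  have := hWW x₀ (x₀⁻¹ * x) hx v (hv x₀ hx₀)
  rwa [mul_assoc, mul_inv_cancel_left] at this

/-- Packing: the number of Bowen cells times the measure of a Bowen set is at most one. -/
lemma packing [MeasurableSpace K] [BorelSpace K] (μ : Measure K) [IsProbabilityMeasure μ]
    [μ.IsMulLeftInvariant] (γ : S → K →ₜ* K) (𝒰 : Set (Set K))
    (V V₀ : Set K) (hV : ∀ x, ∃ U ∈ 𝒰, ∀ v ∈ V, x * v ∈ U)
    (hV₀ : IsOpen V₀) (hV1 : (1 : K) ∈ V₀) (hVV : ∀ v ∈ V₀, ∀ w ∈ V₀, v * w⁻¹ ∈ V) (F : Finset S) :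
    (coverNumber (join (fun s => γ s) F 𝒰) : ℝ) * μ.real (bowen γ F V₀) ≤ 1 := by
  classical
  set B := bowen γ F V₀ with hB
  have hBo : IsOpen B := isOpen_bowen γ F hV₀
  have hB1 : (1 : K) ∈ B := fun s _ => by simpa using hV1
  set tr : K → Set K := fun x => (fun y => x⁻¹ * y) ⁻¹' B with htr
  have htro : ∀ x, IsOpen (tr x) := fun x => hBo.preimage (continuous_const_mul x⁻¹)
  have htrμ : ∀ x, μ.real (tr x) = μ.real B := by
    intro x
    simp only [Measure.real, htr]
    rw [measure_preimage_mul]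
  have hle : ∀ P : Finset K, (P : Set K).PairwiseDisjoint tr → (P.card : ℝ) * μ.real B ≤ 1 := by
    intro P hP
    have h1 := measureReal_biUnion_finset (μ := μ) hP (fun x _ => (htro x).measurableSet)
    simp_rw [htrμ] at h1
    rw [Finset.sum_const, nsmul_eq_mul] at h1
    rw [← h1]
    exact measureReal_le_one
  rcases (measureReal_nonneg (μ := μ) (s := B)).eq_or_lt with h0 | hpos
  · rw [← h0]; norm_num
  set A : Set ℕ := {n | ∃ P : Finset K, (P : Set K).PairwiseDisjoint tr ∧ P.card = n} with hA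
  have hAne : A.Nonempty := ⟨0, ∅, by simp, rfl⟩
  have hAbd : BddAbove A := by
    refine ⟨⌈1 / μ.real B⌉₊, ?_⟩
    rintro n ⟨P, hP, rfl⟩
    have h1 := hle P hP
    have h2 : (P.card : ℝ) ≤ 1 / μ.real B := by rwa [le_div_iff₀ hpos]
    exact_mod_cast h2.trans (Nat.le_ceil _)
  obtain ⟨P, hP, hPc⟩ := Nat.sSup_mem hAne hAbd
  have hmax : ∀ y : K, ∃ x ∈ P, ∃ z, z ∈ tr y ∧ z ∈ tr x := by
    intro y
    by_contra hcon
    push Not at hcon
    have hyy : y ∈ tr y := by simpa [htr] using hB1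
    have hyP : y ∉ P := fun hyP => hcon y hyP y hyy hyy
    have h1 : ((insert y P : Finset K) : Set K).PairwiseDisjoint tr := by
      rw [Finset.coe_insert]
      refine hP.insert fun x hx _ => ?_
      rw [Set.disjoint_left]
      exact fun z hz hz' => hcon x hx z hz hz'
    have h2 : (insert y P).card ∈ A := ⟨_, h1, rfl⟩
    have h3 := le_csSup hAbd h2
    rw [Finset.card_insert_of_notMem hyP] at h3
    omega
  choose U hU hUV using hV
  have hcov : coverNumber (join (fun s => (γ s : K → K)) F 𝒰) ≤ P.card := by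
    refine (coverNumber_le (P.image fun x => ⋂ s ∈ F, (γ s) ⁻¹' (U (γ s x))) ?_ ?_).trans
      Finset.card_image_le
    · intro Z hZ
      simp only [Finset.coe_image, Set.mem_image, Finset.mem_coe] at hZ
      obtain ⟨x, _, rfl⟩ := hZ
      exact ⟨fun s => U (γ s x), fun s _ => hU _, rfl⟩
    · apply Set.eq_univ_of_forall
      intro y
      obtain ⟨x, hx, z, hzy, hzx⟩ := hmax y
      refine ⟨⋂ s ∈ F, (γ s) ⁻¹' (U (γ s x)), ?_, ?_⟩
      · simp only [Finset.coe_image, Set.mem_image, Finset.mem_coe]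
        exact ⟨x, hx, rfl⟩
      · simp only [Set.mem_iInter, Set.mem_preimage]
        intro s hs
        have h1 : γ s (y⁻¹ * z) ∈ V₀ := hzy s hs
        have h2 : γ s (x⁻¹ * z) ∈ V₀ := hzx s hs
        have h3 := hUV (γ s x) _ (hVV _ h2 _ h1)
        have h4 : γ s x * (γ s (x⁻¹ * z) * (γ s (y⁻¹ * z))⁻¹) = γ s y := by
          rw [← map_inv, ← map_mul, ← map_mul]
          congr 1
          group
        rwa [h4] at h3
  have h5 : (coverNumber (join (fun s => (γ s : K → K)) F 𝒰) : ℝ) ≤ P.card := by exact_mod_cast hcov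
  exact (mul_le_mul_of_nonneg_right h5 hpos.le).trans (hle P hP)

/-- Evaluation at a point as a homomorphism on the dual group. -/
noncomputable def ev (y : K) : PontryaginDual K →* ℂ where
  toFun χ := (χ y : ℂ)
  map_one' := by
    have : (1 : PontryaginDual K) y = 1 := rfl
    rw [this]; rfl
  map_mul' χ ψ := by
    have : (χ * ψ) y = χ y * ψ y := rfl
    rw [this, Circle.coe_mul]

open Classical in
/-- Trigonometric polynomials peaking at the identity. -/
lemma exists_trig [T2Space K] (V : Set K) (hV : IsOpen V) (hV1 : (1 : K) ∈ V) (ε : ℝ) (hε : 0 < ε) :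
    ∃ (X : Finset (PontryaginDual K)) (a : PontryaginDual K → ℂ), X.Nonempty ∧
      ∑ χ ∈ X, a χ = 1 ∧ (∀ y, ‖∑ χ ∈ X, a χ * (χ y : ℂ)‖ ≤ 1) ∧
      ∀ y, y ∉ V → ‖∑ χ ∈ X, a χ * (χ y : ℂ)‖ ≤ ε := by
  -- finitely many characters separating `1` from the complement of `V`
  have hsep : ∀ y : K, y ∉ V → ∃ χ : PontryaginDual K, χ y ≠ 1 := by
    intro y hy
    exact Pool.LatH472.chars y (fun h => hy (h ▸ hV1))
  obtain ⟨t, ht⟩ := (hV.isClosed_compl.isCompact).elim_finite_subcover
    (fun χ : PontryaginDual K => {y : K | χ y ≠ 1})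
    (fun χ => isOpen_ne_fun (map_continuous χ) continuous_const)
    (fun y hy => Set.mem_iUnion.2 (hsep y hy))
  -- the polynomial
  set E : K → (MonoidAlgebra ℂ (PontryaginDual K) →ₐ[ℂ] ℂ) := fun y =>
    MonoidAlgebra.lift ℂ ℂ (PontryaginDual K) (ev y) with hE
  have hEof : ∀ y χ, E y (MonoidAlgebra.of ℂ (PontryaginDual K) χ) = (χ y : ℂ) := by
    intro y χ
    simp only [hE]
    rw [MonoidAlgebra.lift_of]
    rfl
  set k : ℝ := (t.card : ℝ) + 1 with hk
  have hk0 : 0 < k := by positivity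
  set p₀ : MonoidAlgebra ℂ (PontryaginDual K) := ((k⁻¹ : ℝ) : ℂ) • (1 + ∑ χ ∈ t, ((1 / 2 : ℝ) : ℂ) •
    (1 + MonoidAlgebra.of ℂ (PontryaginDual K) χ)) with hp₀
  have hEp : ∀ y, E y p₀ = ((k⁻¹ : ℝ) : ℂ) * (1 + ∑ χ ∈ t, ((1 / 2 : ℝ) : ℂ) * (1 + (χ y : ℂ))) := by
    intro y
    rw [hp₀, map_smul, smul_eq_mul, map_add, map_one, map_sum]
    congr 2
    refine Finset.sum_congr rfl fun χ _ => ?_
    rw [map_smul, smul_eq_mul, map_add, map_one, hEof]
  have hterm : ∀ (χ : PontryaginDual K) (y : K), ‖((1 / 2 : ℝ) : ℂ) * (1 + (χ y : ℂ))‖ ≤ 1 := by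
    intro χ y
    rw [norm_mul, Complex.norm_real]
    have h1 : ‖(1 : ℂ) + (χ y : ℂ)‖ ≤ 1 + 1 := by
      refine (norm_add_le _ _).trans ?_
      rw [norm_one, Circle.norm_coe]
    norm_num at h1 ⊢
    linarith
  have hnorm : ∀ y, ‖E y p₀‖ ≤ k⁻¹ * (1 + ∑ χ ∈ t, ‖((1 / 2 : ℝ) : ℂ) * (1 + (χ y : ℂ))‖) := by
    intro y
    rw [hEp, norm_mul, Complex.norm_real, Real.norm_of_nonneg (by positivity)]
    apply mul_le_mul_of_nonneg_left _ (by positivity)
    refine (norm_add_le _ _).trans ?_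
    rw [norm_one]
    exact add_le_add_right (norm_sum_le _ _) 1
  have hle1 : ∀ y, ‖E y p₀‖ ≤ 1 := by
    intro y
    refine (hnorm y).trans ?_
    rw [inv_mul_le_iff₀ hk0, mul_one, hk, add_comm]
    have := Finset.sum_le_sum (s := t) fun χ _ => hterm χ y
    rw [Finset.sum_const, nsmul_eq_mul, mul_one] at this
    linarith
  have hlt1 : ∀ y, y ∉ V → ‖E y p₀‖ < 1 := by
    intro y hy
    refine lt_of_le_of_lt (hnorm y) ?_
    rw [inv_mul_lt_iff₀ hk0, mul_one, hk, add_comm]
    have hex := ht hy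
    simp only [Set.mem_iUnion] at hex
    obtain ⟨χ, hχt, hχ⟩ := hex
    have hstrict : ‖((1 / 2 : ℝ) : ℂ) * (1 + (χ y : ℂ))‖ < 1 := by
      rw [norm_mul, Complex.norm_real]
      have h1 : ‖(1 : ℂ) + (χ y : ℂ)‖ < 2 := by
        by_contra hc
        push Not at hc
        apply hχ
        apply Circle.ext
        have h2 : ‖(χ y : ℂ)‖ = 1 := Circle.norm_coe _
        set z : ℂ := (χ y : ℂ) with hz
        have h3 : ‖(1 : ℂ) + z‖ ^ 2 = 2 + 2 * z.re := by
          rw [← Complex.normSq_eq_norm_sq, Complex.normSq_apply]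
          have h4 : ‖z‖ ^ 2 = z.re * z.re + z.im * z.im := by
            rw [← Complex.normSq_eq_norm_sq, Complex.normSq_apply]
          rw [h2] at h4
          simp only [Complex.add_re, Complex.one_re, Complex.add_im, Complex.one_im]
          nlinarith
        have h4 : ‖z‖ ^ 2 = z.re * z.re + z.im * z.im := by
          rw [← Complex.normSq_eq_norm_sq, Complex.normSq_apply]
        rw [h2] at h4
        have h5 : 1 ≤ z.re := by nlinarith [norm_nonneg ((1 : ℂ) + z)]
        have h6 : z.re = 1 := by nlinarith [mul_self_nonneg z.im]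
        have h7 : z.im = 0 := by
          have : z.im * z.im = 0 := by rw [h6] at h4; linarith
          exact mul_self_eq_zero.1 this
        apply Complex.ext
        · simpa using h6
        · simpa using h7
      norm_num at h1 ⊢
      linarith
    have := Finset.sum_lt_sum (s := t) (fun χ _ => hterm χ y) ⟨χ, hχt, hstrict⟩
    rw [Finset.sum_const, nsmul_eq_mul, mul_one] at this
    linarith
  -- uniform bound
  have hcont : Continuous fun y => ‖E y p₀‖ := by
    simp_rw [hEp]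
    refine continuous_norm.comp (continuous_const.mul (continuous_const.add
      (continuous_finsetSum _ fun χ _ => continuous_const.mul (continuous_const.add
        (continuous_subtype_val.comp (map_continuous χ))))))
  obtain ⟨ρ, hρ1, hρ⟩ : ∃ ρ : ℝ, ρ < 1 ∧ ∀ y, y ∉ V → ‖E y p₀‖ ≤ ρ := by
    rcases (Vᶜ : Set K).eq_empty_or_nonempty with he | hne
    · refine ⟨0, by norm_num, fun y hy => ?_⟩
      have : y ∈ (Vᶜ : Set K) := hy
      rw [he] at this
      exact absurd this (Set.notMem_empty y)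
    · obtain ⟨y₀, hy₀, hmax⟩ := hV.isClosed_compl.isCompact.exists_isMaxOn hne hcont.continuousOn
      exact ⟨‖E y₀ p₀‖, hlt1 y₀ hy₀, fun y hy => hmax hy⟩
  obtain ⟨m, hm⟩ := exists_pow_lt_of_lt_one hε hρ1
  have hform : ∀ y, E y (p₀ ^ m) = ∑ χ ∈ (p₀ ^ m).coeff.support, (p₀ ^ m).coeff χ * (χ y : ℂ) := by
    intro y
    simp only [hE]
    rw [MonoidAlgebra.lift_apply]
    rfl
  have hone : ∑ χ ∈ (p₀ ^ m).coeff.support, (p₀ ^ m).coeff χ = 1 := by
    have h1 := hform 1
    have h2 : E 1 p₀ = 1 := by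
      rw [hEp]
      simp only [map_one, Circle.coe_one]
      rw [Finset.sum_const, nsmul_eq_mul]
      have : ((t.card : ℂ) + 1) ≠ 0 := by
        have : ((t.card : ℂ) + 1) = ((t.card + 1 : ℕ) : ℂ) := by push_cast; ring
        rw [this]
        exact Nat.cast_ne_zero.2 (Nat.succ_ne_zero _)
      rw [hk]
      push_cast
      field_simp
      ring
    rw [map_pow, h2, one_pow] at h1
    simp only [map_one, Circle.coe_one, mul_one] at h1
    exact h1.symm
  refine ⟨(p₀ ^ m).coeff.support, (p₀ ^ m).coeff, ?_, hone, ?_, ?_⟩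
  · rw [Finset.nonempty_iff_ne_empty]
    intro h0
    rw [h0, Finset.sum_empty] at hone
    exact zero_ne_one hone
  · intro y
    rw [← hform, map_pow, norm_pow]
    exact pow_le_one₀ (norm_nonneg _) (hle1 y)
  · intro y hy
    rw [← hform, map_pow, norm_pow]
    exact (pow_le_pow_left₀ (norm_nonneg _) (hρ y hy) m).trans hm.le

/-- Cauchy–Schwarz and Parseval: a product of trigonometric polynomials with spectrum in `X` along
`F` that takes the value `1` at the identity has large square mean. -/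
lemma one_le_card_mul_integral [MeasurableSpace K] [BorelSpace K] (μ : Measure K)
    [IsProbabilityMeasure μ] [μ.IsMulLeftInvariant] (γ : S → K →ₜ* K)
    (X : Finset (PontryaginDual K)) (a : PontryaginDual K → ℂ) (ha : ∑ χ ∈ X, a χ = 1)
    (F : Finset S) :
    1 ≤ ((traj γ F X).ncard : ℝ) *
      ∫ y, ‖∏ s : F, ∑ χ ∈ X, a χ * (χ (γ s y) : ℂ)‖ ^ 2 ∂μ := by
  classical
  set T : Finset (PontryaginDual K) := (traj_finite γ F X).toFinset with hT
  have hTc : T.card = (traj γ F X).ncard := (Set.ncard_eq_toFinset_card _ _).symm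
  set ch : (F → X) → PontryaginDual K := fun g =>
    ∏ s : F, PontryaginDual.map (γ s) (g s : PontryaginDual K) with hch
  have hchT : ∀ g ∈ (Finset.univ : Finset (F → X)), ch g ∈ T := by
    intro g _
    rw [hT, Set.Finite.mem_toFinset]
    by_cases hX : X.Nonempty
    · obtain ⟨χ₀, hχ₀⟩ := hX
      refine ⟨fun s => if hs : s ∈ F then g ⟨s, hs⟩ else χ₀, fun s hs => ?_, ?_⟩
      · simp [hs]
      · rw [← Finset.prod_coe_sort F]
        simp only [hch]
        refine Finset.prod_congr rfl fun s _ => ?_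
        simp
    · rw [Finset.not_nonempty_iff_eq_empty] at hX
      subst hX
      simp at ha
  set c : (F → X) → ℂ := fun g => ∏ s : F, a (g s) with hc
  set b : PontryaginDual K → ℂ := fun τ => ∑ g : F → X with ch g = τ, c g with hb
  have hev : ∀ g y, ((ch g) y : ℂ) = ∏ s : F, ((g s : PontryaginDual K) (γ s y) : ℂ) := by
    intro g y
    have h2 : (ch g) y = ∏ s : F, (g s : PontryaginDual K) (γ s y) := by
      have : ∀ (A : Finset F), (∏ s ∈ A, PontryaginDual.map (γ s) (g s : PontryaginDual K)) y =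
        ∏ s ∈ A, (g s : PontryaginDual K) (γ s y) := by
        intro A
        induction A using Finset.induction_on with
        | empty => simp
        | insert a A ha ih =>
          rw [Finset.prod_insert ha, Finset.prod_insert ha, ← ih]
          rfl
      exact this _
    rw [h2]
    exact map_prod Circle.coeHom _ _
  have hexp : ∀ y, ∏ s : F, ∑ χ ∈ X, a χ * (χ (γ s y) : ℂ) = ∑ τ ∈ T, b τ * (τ y : ℂ) := by
    intro y
    have h1 : ∀ s : F, ∑ χ ∈ X, a χ * (χ (γ s y) : ℂ) =
        ∑ χ : X, a χ * ((χ : PontryaginDual K) (γ s y) : ℂ) := fun s =>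
      (Finset.sum_coe_sort X (fun χ => a χ * (χ (γ s y) : ℂ))).symm
    rw [Finset.prod_congr rfl fun s _ => h1 s, Finset.prod_univ_sum, Fintype.piFinset_univ]
    have h2 : ∀ τ ∈ T, b τ * (τ y : ℂ) = ∑ g : F → X with ch g = τ, c g * ((ch g) y : ℂ) := by
      intro τ _
      rw [hb, Finset.sum_mul]
      refine Finset.sum_congr rfl fun g hg => ?_
      rw [(Finset.mem_filter.1 hg).2]
    rw [Finset.sum_congr rfl h2,
      Finset.sum_fiberwise_of_maps_to hchT (fun g => c g * ((ch g) y : ℂ))]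
    refine Finset.sum_congr rfl fun g _ => ?_
    rw [hev, hc, Finset.prod_mul_distrib]
  have hb1 : ∑ τ ∈ T, b τ = 1 := by
    rw [hb, Finset.sum_fiberwise_of_maps_to hchT c]
    have h3 : ∏ s : F, ∑ χ : X, a χ = ∑ g : F → X, c g := by
      rw [Finset.prod_univ_sum, Fintype.piFinset_univ]
    rw [← h3]
    refine Finset.prod_eq_one fun s _ => ?_
    rw [Finset.sum_coe_sort X (fun χ => a χ), ha]
  simp_rw [hexp]
  rw [parseval μ, ← hTc]
  have h4 : (1 : ℝ) ≤ ∑ τ ∈ T, ‖b τ‖ := by
    calc (1 : ℝ) = ‖∑ τ ∈ T, b τ‖ := by rw [hb1, norm_one]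
      _ ≤ _ := norm_sum_le _ _
  calc (1 : ℝ) ≤ (∑ τ ∈ T, ‖b τ‖) ^ 2 := by nlinarith
    _ ≤ _ := sq_sum_le_card_mul_sum_sq

/-- Upper bound for the square mean of a product of peaking trigonometric polynomials. -/
lemma integral_le [MeasurableSpace K] [BorelSpace K] (μ : Measure K)
    [IsProbabilityMeasure μ] [μ.IsMulLeftInvariant] (γ : S → K →ₜ* K)
    (P : K → ℂ) (hPc : Continuous P) (V V₀ : Set K) (hV : IsOpen V) (hV₀ : IsOpen V₀)
    (hVV : ∀ v ∈ V, ∀ w ∈ V, v⁻¹ * w ∈ V₀)
    (J : Finset K) (hJ : ∀ y : K, ∃ x ∈ J, x⁻¹ * y ∈ V)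
    (δ : ℝ) (hδ : 0 ≤ δ) (hP1 : ∀ y, ‖P y‖ ^ 2 ≤ 1) (hPδ : ∀ y, y ∉ V → ‖P y‖ ^ 2 ≤ δ)
    (F : Finset S) :
    ∫ y, ‖∏ s : F, P (γ s y)‖ ^ 2 ∂μ ≤ (1 + δ * J.card) ^ F.card * μ.real (bowen γ F V₀) := by
  classical
  -- centres, weights and cells
  set ctr : Option J → K := fun o => match o with
    | none => 1
    | some x => x with hctr
  set wt : Option J → ℝ := fun o => match o with
    | none => 1
    | some _ => δ with hwt
  have hwt0 : ∀ o, 0 ≤ wt o := by
    intro o
    cases o with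
    | none => exact zero_le_one
    | some _ => exact hδ
  set A : (F → Option J) → Set K := fun g => {y | ∀ s : F, (ctr (g s))⁻¹ * γ s y ∈ V} with hA
  have hAo : ∀ g, IsOpen (A g) := by
    intro g
    have : A g = ⋂ s : F, (fun y => (ctr (g s))⁻¹ * γ s y) ⁻¹' V := by
      ext y; simp [hA]
    rw [this]
    exact isOpen_iInter_of_finite fun s => hV.preimage
      (continuous_const.mul (map_continuous (γ s)))
  have hBo : IsOpen (bowen γ F V₀) := isOpen_bowen γ F hV₀
  have hAμ : ∀ g, μ.real (A g) ≤ μ.real (bowen γ F V₀) := by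
    intro g
    rcases (A g).eq_empty_or_nonempty with h0 | ⟨y₀, hy₀⟩
    · rw [h0]; simp
    · have hsub : A g ⊆ (fun y => y₀⁻¹ * y) ⁻¹' (bowen γ F V₀) := by
        intro y hy s hs
        have h1 := hVV _ (hy₀ ⟨s, hs⟩) _ (hy ⟨s, hs⟩)
        have h2 : ((ctr (g ⟨s, hs⟩))⁻¹ * γ s y₀)⁻¹ * ((ctr (g ⟨s, hs⟩))⁻¹ * γ s y) =
            γ s (y₀⁻¹ * y) := by
          rw [map_mul, map_inv]
          group
        rwa [h2] at h1
      calc μ.real (A g) ≤ μ.real ((fun y => y₀⁻¹ * y) ⁻¹' (bowen γ F V₀)) := measureReal_mono hsub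
        _ = μ.real (bowen γ F V₀) := by simp only [Measure.real]; rw [measure_preimage_mul]
  -- pointwise bound
  have hpt : ∀ y, ‖∏ s : F, P (γ s y)‖ ^ 2 ≤
      ∑ g : F → Option J, (∏ s, wt (g s)) * (A g).indicator (1 : K → ℝ) y := by
    intro y
    have h1 : ∀ (s : F), ‖P (γ s y)‖ ^ 2 ≤
        ∑ o : Option J, wt o * (if (ctr o)⁻¹ * γ s y ∈ V then (1 : ℝ) else 0) := by
      intro s
      rw [Fintype.sum_option]
      by_cases hy : γ s y ∈ V
      · have h2 : wt none * (if (ctr none)⁻¹ * γ s y ∈ V then (1 : ℝ) else 0) = 1 := by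
          simp [hwt, hctr, hy]
        rw [h2]
        have h3 : 0 ≤ ∑ x : J, wt (some x) * (if (ctr (some x))⁻¹ * γ s y ∈ V then (1 : ℝ) else 0) := by
          refine Finset.sum_nonneg fun x _ => mul_nonneg (hwt0 (some x)) ?_
          split_ifs <;> norm_num
        linarith [hP1 (γ s y)]
      · obtain ⟨x, hx, hxy⟩ := hJ (γ s y)
        have h3 : δ ≤ ∑ x : J, wt (some x) * (if (ctr (some x))⁻¹ * γ s y ∈ V then (1 : ℝ) else 0) := by
          have h4 := Finset.single_le_sum (s := (Finset.univ : Finset J))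
            (f := fun x => wt (some x) * (if (ctr (some x))⁻¹ * γ s y ∈ V then (1 : ℝ) else 0))
            (fun x _ => mul_nonneg (hwt0 (some x)) (by split_ifs <;> norm_num))
            (Finset.mem_univ ⟨x, hx⟩)
          have h5 : wt (some ⟨x, hx⟩) *
              (if (ctr (some (⟨x, hx⟩ : J)))⁻¹ * γ s y ∈ V then (1 : ℝ) else 0) = δ := by
            simp [hwt, hctr, hxy]
          rw [h5] at h4
          exact h4
        have h6 : 0 ≤ wt none * (if (ctr none)⁻¹ * γ s y ∈ V then (1 : ℝ) else 0) :=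
          mul_nonneg (hwt0 none) (by split_ifs <;> norm_num)
        linarith [hPδ (γ s y) hy]
    have h7 : ‖∏ s : F, P (γ s y)‖ ^ 2 = ∏ s : F, ‖P (γ s y)‖ ^ 2 := by
      rw [norm_prod, Finset.prod_pow]
    rw [h7]
    refine (Finset.prod_le_prod (fun s _ => sq_nonneg _) fun s _ => h1 s).trans (le_of_eq ?_)
    rw [Finset.prod_univ_sum, Fintype.piFinset_univ]
    refine Finset.sum_congr rfl fun g _ => ?_
    rw [Finset.prod_mul_distrib]
    congr 1
    by_cases hg : y ∈ A g
    · rw [Set.indicator_of_mem hg]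
      refine Finset.prod_eq_one fun s _ => ?_
      rw [if_pos (hg s)]
    · rw [Set.indicator_of_notMem hg]
      have : ∃ s : F, ¬ ((ctr (g s))⁻¹ * γ s y ∈ V) := by
        by_contra hcon
        push Not at hcon
        exact hg hcon
      obtain ⟨s, hs⟩ := this
      exact Finset.prod_eq_zero (Finset.mem_univ s) (if_neg hs)
  have hint : ∀ g : F → Option J, Integrable
      (fun y => (∏ s, wt (g s)) * (A g).indicator (1 : K → ℝ) y) μ := by
    intro g
    refine Integrable.const_mul ?_ _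
    exact (integrable_const (1 : ℝ)).indicator (hAo g).measurableSet
  have hcont1 : Continuous fun y => ∏ s : F, P (γ s y) :=
    continuous_finsetProd _ fun s _ => hPc.comp (map_continuous (γ s))
  have hcont : Continuous fun y => ‖∏ s : F, P (γ s y)‖ ^ 2 := hcont1.norm.pow 2
  calc ∫ y, ‖∏ s : F, P (γ s y)‖ ^ 2 ∂μ
      ≤ ∫ y, ∑ g : F → Option J, (∏ s, wt (g s)) * (A g).indicator (1 : K → ℝ) y ∂μ :=
        integral_mono (integrable_cont μ hcont) (integrable_finsetSum _ fun g _ => hint g) hpt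
    _ = ∑ g : F → Option J, (∏ s, wt (g s)) * μ.real (A g) := by
        rw [integral_finsetSum _ fun g _ => hint g]
        refine Finset.sum_congr rfl fun g _ => ?_
        rw [integral_const_mul, integral_indicator_one (hAo g).measurableSet]
    _ ≤ ∑ g : F → Option J, (∏ s, wt (g s)) * μ.real (bowen γ F V₀) :=
        Finset.sum_le_sum fun g _ => mul_le_mul_of_nonneg_left (hAμ g)
          (Finset.prod_nonneg fun s _ => hwt0 _)
    _ = (1 + δ * J.card) ^ F.card * μ.real (bowen γ F V₀) := by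
        rw [← Finset.sum_mul]
        congr 1
        rw [sum_prod_option (fun (_ : F) (o : Option J) => wt o), Finset.prod_const,
          Finset.card_univ, Fintype.card_coe]
        congr 1
        simp only [hwt]
        rw [Finset.sum_const, Finset.card_univ, Fintype.card_coe, nsmul_eq_mul]
        ring

/-- Second inequality: the topological growth along an open cover is dominated by the algebraic
growth along a suitable finite set of characters, uniformly over all finite sets `F`. -/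
theorem partB [T2Space K] (γ : S → K →ₜ* K) (𝒰 : Set (Set K)) (h𝒰 : IsFiniteOpenCover K 𝒰)
    (ε : ℝ) (hε : 0 < ε) :
    ∃ X : Finset (PontryaginDual K), X.Nonempty ∧ ∀ F : Finset S,
      Real.log (coverNumber (join (fun s => γ s) F 𝒰) : ℝ) ≤
        Real.log ((traj γ F X).ncard : ℝ) + ε * F.card := by
  classical
  letI : MeasurableSpace K := borel K
  haveI : BorelSpace K := ⟨rfl⟩
  let μ : Measure K := Measure.haarMeasure ⊤
  haveI : IsProbabilityMeasure μ := ⟨by
    have := Measure.haarMeasure_self (G := K) (K₀ := ⊤)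
    simpa [μ] using this⟩
  haveI : μ.IsMulLeftInvariant := by dsimp only [μ]; infer_instance
  obtain ⟨V, hVo, hV1, hV⟩ := exists_lebesgue 𝒰 h𝒰
  obtain ⟨V₀, hV₀n, hVV⟩ := exists_nhds_split_inv (hVo.mem_nhds hV1)
  obtain ⟨V₁, hV₁sub, hV₁o, hV₁1⟩ := mem_nhds_iff.1 hV₀n
  obtain ⟨W, hWn, hWW⟩ := exists_nhds_split_inv (hV₁o.mem_nhds hV₁1)
  obtain ⟨W₁, hW₁sub, hW₁o, hW₁1⟩ := mem_nhds_iff.1 hWn
  obtain ⟨J, hJ⟩ := isCompact_univ.elim_finite_subcover (fun x : K => {y | x⁻¹ * y ∈ W₁})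
    (fun x => hW₁o.preimage (continuous_const_mul x⁻¹))
    (fun x _ => Set.mem_iUnion.2 ⟨x, by simpa using hW₁1⟩)
  have hJ' : ∀ y : K, ∃ x ∈ J, x⁻¹ * y ∈ W₁ := by
    intro y
    have := hJ (Set.mem_univ y)
    simp only [Set.mem_iUnion] at this
    obtain ⟨x, hx, hy⟩ := this
    exact ⟨x, hx, hy⟩
  set δ : ℝ := ε / (J.card + 1) with hδ
  have hδ0 : 0 < δ := by positivity
  obtain ⟨X, a, hX, ha, hP1, hPδ⟩ := exists_trig W₁ hW₁o hW₁1 (Real.sqrt δ) (Real.sqrt_pos.2 hδ0)
  refine ⟨X, hX, fun F => ?_⟩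
  have h1 := one_le_card_mul_integral μ γ X a ha F
  have h2 := integral_le μ γ (fun y => ∑ χ ∈ X, a χ * (χ y : ℂ))
    (continuous_finsetSum _ fun χ _ => continuous_const.mul (continuous_char χ)) W₁ V₁ hW₁o hV₁o
    (fun v hv w hw => by
      have := hWW _ (hW₁sub hw) _ (hW₁sub hv)
      rwa [div_eq_mul_inv, mul_comm] at this)
    J hJ' δ hδ0.le (fun y => pow_le_one₀ (norm_nonneg _) (hP1 y))
    (fun y hy => by
      have := pow_le_pow_left₀ (norm_nonneg _) (hPδ y hy) 2
      rwa [Real.sq_sqrt hδ0.le] at this) F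
  have h3 := packing μ γ 𝒰 V V₁ hV hV₁o hV₁1
    (fun v hv w hw => by
      have := hVV _ (hV₁sub hv) _ (hV₁sub hw)
      rwa [div_eq_mul_inv] at this) F
  set N : ℝ := (coverNumber (join (fun s => (γ s : K → K)) F 𝒰) : ℝ) with hN
  set t : ℝ := ((traj γ F X).ncard : ℝ) with ht
  set M : ℝ := μ.real (bowen γ F V₁) with hM
  have ht0 : 0 ≤ t := Nat.cast_nonneg _
  have hM0 : 0 ≤ M := measureReal_nonneg
  have h4 : (1 + δ * J.card) ^ F.card ≤ Real.exp (ε * F.card) := by
    rw [mul_comm ε, Real.exp_nat_mul]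
    apply pow_le_pow_left₀ (by positivity)
    have h5 : δ * J.card ≤ ε := by
      rw [hδ, div_mul_eq_mul_div, div_le_iff₀ (by positivity)]
      nlinarith
    have := Real.add_one_le_exp ε
    linarith
  have h6 : 1 ≤ t * (Real.exp (ε * F.card) * M) :=
    h1.trans (mul_le_mul_of_nonneg_left (h2.trans (mul_le_mul_of_nonneg_right h4 hM0)) ht0)
  have hMpos : 0 < M := by
    rcases hM0.eq_or_lt with h | h
    · rw [← h] at h6; norm_num at h6
    · exact h
  have htpos : 0 < t := by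
    rcases ht0.eq_or_lt with h | h
    · rw [← h] at h6; norm_num at h6
    · exact h
  have h7 : N ≤ t * Real.exp (ε * F.card) := by
    have h8 : N * M ≤ (t * Real.exp (ε * F.card)) * M := by
      calc N * M ≤ 1 := h3
        _ ≤ t * (Real.exp (ε * F.card) * M) := h6
        _ = _ := by ring
    exact le_of_mul_le_mul_right h8 hMpos
  rcases (Nat.cast_nonneg (α := ℝ) (coverNumber (join (fun s => (γ s : K → K)) F 𝒰))).eq_or_lt
    with h | h
  · have hN0 : N = 0 := h.symm
    rw [hN0, Real.log_zero]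
    have h9 : 1 ≤ t := by
      have : (0 : ℝ) < ((traj γ F X).ncard : ℝ) := htpos
      have h10 : 0 < (traj γ F X).ncard := by exact_mod_cast this
      have h11 : 1 ≤ (traj γ F X).ncard := h10
      rw [ht]
      exact_mod_cast h11
    have := Real.log_nonneg h9
    positivity
  · have h8 := Real.log_le_log h h7
    rwa [Real.log_mul htpos.ne' (Real.exp_pos _).ne', Real.log_exp] at h8

end partB

end Pool.Agent.H432.Bridge
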